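import Pool.Agent.Helper51K9.TI.Main
import Pool.Agent.Helper51K9.TI.DeltaP

/-!
# Ratios of successive critical values over totally imaginary fields: Artin twists

Let `F` be a totally imaginary number field, `M₀` a pure motive over `F` of rank `n` with coefficients in
`E`, such that `M = Res_{F/ℚ} M₀` has no middle Hodge type, and let `m`, `m + 1` be critical. Deligne's
conjecture predicts

`L(m, M) / L(m + 1, M) = (i ^ (d_F / 2) Δ_F) ^ n` in `(E ⊗ ℂ) / E^×`

for the completed L-functions (Q1 of the problem, `RatioFormula`). The formula is known for the
L-functions of cohomological cuspidal automorphic representations (Raghuram); for a motive this needs its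
automorphy, while the known theorems (potential automorphy) often give the automorphy of `M₀` only over a
large finite Galois extension `Ω` of `F`, and then over the fields `K` between `F` and `Ω` such that the
Galois group of `Ω` over `K` is solvable.

**Theorem.** Let `Ω` be a finite Galois extension of `F`. The following are equivalent:

* for all `K` between `F` and `Ω` such that the Galois group of `Ω` over `K` is NILPOTENT, and all
  characters `ψ` of this Galois group with values in number fields `E'` that contain `E`, the L-function of
  the motive `M_{0,K} ⊗ ψ` over `K` (meromorphic, without zeros in a right half plane) exists, and Q1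
  holds for it (over `K`, with `Δ_K` and `d_K`);
* for ALL representations `ρ` of the Galois group of `Ω` over `F`, with values in number fields `E'` that
  contain `E`, the L-function of the motive `M₀ ⊗ ρ` over `F` exists, and Q1 holds for it (over
  `F`, of rank `n dim ρ`).

In particular (`ρ = 1`) Q1 for `M₀` itself follows from Q1 for the abelian twists over the fields `K`. The
element `e` of `E'` in the formula is the same for all embeddings of `E'`. Besides Brauer's induction
theorem (over the field of coefficients, which has to be extended and to be descended) the proof uses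
`Δ_K = Δ_F ^ [K : F]` up to `ℚ^×` for all finite extensions `K` of `F`, in the CM-case and in
the TR-case (`delta`, by helper67).

The completed L-functions are those of the problem: `L_∞ (s, M ⊗ ρ) = ∏ Γ_ℂ (s - p) ^ dim ρ`, the product
over the Hodge types `(p, q)`, `p < q`, of `M = Res_{F/ℚ} M₀`.
-/

namespace Pool.Agent.Results.MP_c63a07_nt.ArtinTwists

open Pool.Agent.Helper51K9.TI

theorem result {A : Type} [Field A] [CharZero A] [IsAlgClosed A] [Algebra.IsAlgebraic ℚ A]
    (ι : A →+* ℂ) (c : A ≃ₐ[ℚ] A) (hc : IsConj ι c) (F : IntermediateField ℚ A)
    [FiniteDimensional ℚ F] (hF : TotallyImaginary c F) {E : Type} [Field E] [NumberField E] {n : ℕ}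
    (M : Motive F E n) (m : ℤ) (hm : IsCritical M m)
    (Ω : IntermediateField ℚ A) [FiniteDimensional ℚ Ω] (hΩ : F ≤ Ω) [(gal F Ω).Normal] :
    NilpotentRatios M ι c m Ω ↔
      ∀ (E' : Type) [Field E'] [NumberField E'] [Algebra E E'] (r : Type) [Fintype r]
        [DecidableEq r] (ρ : F.fixingSubgroup →* Matrix r r E'), TrivialOn Ω ρ →
        HasL M.toRealizations ρ ∧ RatioFormula M ι c m F (n * Fintype.card r) ρ :=
  ⟨fun h => main delta hc hF M hm Ω hΩ h, fun h => conv delta hc hF M hm Ω hΩ h⟩

end Pool.Agent.Results.MP_c63a07_nt.ArtinTwists
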