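import Pool.Agent.Helper78K9.DR.Field

/-!
# Ratios of successive critical values over totally imaginary fields: descent from large fields

Let `F` be a totally imaginary number field, `M₀` a pure motive over `F` of rank `n` with coefficients in
`E`, such that `M = Res_{F/ℚ} M₀` has no middle Hodge type, and let `m` be critical (for Q1 of the
problem `m + 1` is critical, too; this is not needed). Deligne's conjecture predicts

`L(m, M) / L(m + 1, M) = (i ^ (d_F / 2) Δ_F) ^ n` in `(E ⊗ ℂ) / E^×`

for the completed L-functions (Q1 of the problem, `RatioFormula`; the definitions of helper51,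
`Pool.Agent.Helper51K9.TI`). Let `ρ` be an Artin representation of the Galois group of `F`, with values
in a number field `E'` that contains `E`. For a finite extension `K` of `F`, `KnownOver M ι c m K ρ` says
that for the motive `M₀ ⊗ ρ` over `K`, whose L-function is the one of the motive
`M₀ ⊗ (ρ ⊗ Ind_K 1)` over `F`, the L-function (meromorphic, without zeros in a right half plane)
exists, and Q1 holds (over `K`, of rank `n dim ρ`, with `Δ_K` and `d_K`).

**Theorem (1).** Let `Ω` be a finite Galois extension of `F`. If Q1 is known for `M₀ ⊗ ρ` over all
the fields `K` between `F` and `Ω` such that the Galois group of `Ω` over `K` is hyperelementary (a cyclic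
normal subgroup of order prime to `p` with a `p`-group as the quotient), then it holds for `M₀ ⊗ ρ` over
`F`. No twists by characters of the Galois groups over `K` occur: only the motive `M₀ ⊗ ρ` itself, over
the extensions `K` of `F`. If the Galois group of `Ω` over `F` is not hyperelementary, then all these `K`
are different from `F`.

**Theorem (2).** For every `N` and every number field `F₀` that contains `F`: if Q1 is known for
`M₀ ⊗ ρ` over all the fields `K = F K₀`, where `K₀` is a totally real number field with `K₀/ℚ`
abelian, such that `[K : F] ≥ N` and `K ∩ F₀ = F`, then it holds for `M₀ ⊗ ρ` over `F`.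

With `ρ = 1`: Q1 for motives over all sufficiently large totally imaginary fields (which may be assumed
to be linearly disjoint from a given one) implies it for all totally imaginary fields, and a
counterexample over `F` gives counterexamples (or zeros, or motives without L-functions) over arbitrarily
large abelian extensions of `F`. The coefficients `e` of the formula are descended from `K` to `F`
without extending `E'`.

The proof uses Solomon's induction theorem (`R389.one_mem_sol` in the starting files), the
multiplicativity and the independence of the choices of the L-functions of helper51's twist theory,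
and `Δ_K = Δ_F ^ [K : F]` up to `ℚ^×` for all finite extensions (`delta`, by helper67). For (2) take
the extension of `F` with the group `(ℤ/pq)²`, for two primes `p, q ≥ N`, realized in cyclotomic
fields: its hyperelementary subgroups have index at least `min(p, q)`.
-/

set_option autoImplicit false

namespace Pool.Agent.Results.MP_c63a07_nt.DescentFromLargeFields

open Pool.Agent.Helper51K9.TI Pool.Agent.Helper78K9.DR

theorem result {A : Type} [Field A] [CharZero A] [IsAlgClosed A] [Algebra.IsAlgebraic ℚ A]
    (ι : A →+* ℂ) (c : A ≃ₐ[ℚ] A) (hc : IsConj ι c) (F : IntermediateField ℚ A)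
    [FiniteDimensional ℚ F] (hF : TotallyImaginary c F) {E : Type} [Field E] [NumberField E] {n : ℕ}
    (M : Motive F E n) (m : ℤ) (hm : IsCritical M m)
    {E' : Type} [Field E'] [NumberField E'] [Algebra E E'] {r : Type} [Fintype r] [DecidableEq r]
    (ρ : F.fixingSubgroup →* Matrix r r E') (hρ : FinImage ρ) :
    (∀ (Ω : IntermediateField ℚ A) [FiniteDimensional ℚ Ω], F ≤ Ω → ∀ [(gal F Ω).Normal],
      (∀ K : IntermediateField ℚ A, F ≤ K → K ≤ Ω →
        Pool.Agent.R389.Hyper ((gal F K).map (QuotientGroup.mk' (gal F Ω))) →
        KnownOver M ι c m K ρ) →
      HasL M.toRealizations ρ ∧ RatioFormula M ι c m F (n * Fintype.card r) ρ) ∧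
    (∀ (N : ℕ) (F₀ : IntermediateField ℚ A) [FiniteDimensional ℚ F₀], F ≤ F₀ →
      (∀ (K₀ : IntermediateField ℚ A) [FiniteDimensional ℚ K₀], IsAbelianGalois ℚ K₀ →
        NumberField.IsTotallyReal K₀ → N ≤ IntermediateField.relfinrank F (F ⊔ K₀) →
        (F ⊔ K₀) ⊓ F₀ = F → KnownOver M ι c m (F ⊔ K₀) ρ) →
      HasL M.toRealizations ρ ∧ RatioFormula M ι c m F (n * Fintype.card r) ρ) :=
  ⟨fun Ω _ hΩ _ h => galois_descent hc hF M hm ρ hρ Ω hΩ h,
    fun N F₀ _ hF₀ h => large_descent hc hF M hm ρ hρ N F₀ hF₀ h⟩

end Pool.Agent.Results.MP_c63a07_nt.DescentFromLargeFields
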