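import Pool.Agent.Helper51K9.UC.Main

/-!
# Ratios of successive critical values: relations without the constants

Let `F` be a totally imaginary number field, `M₀` a pure motive over `F` of rank `n` with coefficients in
`E`, such that `M = Res_{F/ℚ} M₀` has no middle Hodge type, and let `m`, `m + 1` be critical. Q1 of the
problem (`RatioFormula`) predicts for the completed L-functions

`R(M₀) := L(m, M₀) / L(m + 1, M₀) = (i ^ (d_F / 2) Δ_F) ^ n` in `(E ⊗ ℂ)^× / E^×`.

It implies that `R(M₀ ⊗ ρ) = R(M₀) ^ dim ρ` for all Artin representations `ρ`: a relation between the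
values, which does not mention the constant. Let `Ω` be a finite Galois extension of `F`.

**Theorem.** (1) The following are equivalent.

* (`TwistInvariance`) For all `K` between `F` and `Ω` such that the Galois group of `Ω` over `K` is
  NILPOTENT, and all characters `ψ` of this Galois group with values in number fields `E'` that contain
  `E`: the L-functions of `M_{0,K} ⊗ ψ` and `M_{0,K}` exist, have finite nonzero values at `m`, `m + 1`,
  and `R(M_{0,K} ⊗ ψ) = R(M_{0,K})` in `(E' ⊗ ℂ)^× / E'^×`.
* (`Powers`) For ALL representations `ρ` of the Galois group of `Ω` over `F` with values in number fields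
  `E'` that contain `E`: the L-functions of `M₀ ⊗ ρ` and `M₀` exist, have finite nonzero values at `m`,
  `m + 1`, and `R(M₀ ⊗ ρ) = R(M₀) ^ dim ρ` in `(E' ⊗ ℂ)^× / E'^×`.

(2) Assume (1). If for every prime number `ℓ` Q1 holds for one `M_{0,K} ⊗ ψ` over one field `K` between
`F` and `Ω` whose degree over `F` is prime to `ℓ` (`SomeFormulas`; for example for `M₀` itself, or for
the `M_{0,K}`, `K` the fixed fields of the Sylow subgroups of the Galois group of `Ω` over `F`), then Q1
holds for `M₀ ⊗ ρ` over `F` for ALL `ρ`, and for `M_{0,K} ⊗ ψ` over `K` for ALL `K` between `F` and `Ω`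
and all `ψ` (`AllFormulas`).

All the hypotheses can be taken over fields `K` over which `Ω` is nilpotent (where for a potentially
automorphic `M₀` the L-functions are automorphic). The formula itself is assumed only for motives whose
ranks over `F` have no common divisor; in the theorem `ArtinTwists` of this folder it is assumed for all
`M_{0,K} ⊗ ψ`.

The proof of (1) uses Brauer's theorem in degree zero with nilpotent subgroups (`UC.deg_zero`): every
character `f` of a finite group minus its degree is a combination of differences `Ind ψ - Ind 1`, `ψ` a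
linear character of a nilpotent subgroup; and descent of the field of coefficients. (2) uses
`Δ_K = Δ_F ^ [K : F]` up to `ℚ^×` (`TI.delta`, by helper67).
-/

namespace Pool.Agent.Results.MP_c63a07_nt.TwistInvariance

open Pool.Agent.Helper51K9.TI Pool.Agent.Helper51K9.UC

theorem result {A : Type} [Field A] [CharZero A] [IsAlgClosed A] [Algebra.IsAlgebraic ℚ A]
    (ι : A →+* ℂ) (c : A ≃ₐ[ℚ] A) (hc : IsConj ι c) (F : IntermediateField ℚ A)
    [FiniteDimensional ℚ F] (hF : TotallyImaginary c F) {E : Type} [Field E] [NumberField E] {n : ℕ}
    (M : Motive F E n) (m : ℤ) (hm : IsCritical M m)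
    (Ω : IntermediateField ℚ A) [FiniteDimensional ℚ Ω] (hΩ : F ≤ Ω) [(gal F Ω).Normal] :
    (TwistInvariance M m Ω ↔ Powers M m Ω) ∧
      (TwistInvariance M m Ω → SomeFormulas M ι c m Ω → AllFormulas M ι c m Ω) :=
  ⟨⟨powers M hm Ω hΩ, twist_of_powers M hm Ω hΩ⟩, all_formulas M hm Ω hΩ hc hF⟩

end Pool.Agent.Results.MP_c63a07_nt.TwistInvariance
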