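import Pool.Agent.Helper61K9.CT.Fin
import Pool.Agent.Helper51K9.TI.DeltaP

/-!
# Ratios of successive critical values when the first value can vanish

Let `F` be a totally imaginary number field, `M` (the `M₀` of the problem) a pure motive over `F` without
middle Hodge type, `m` a critical integer (in the applications the central one, where the L-functions of the
twists of `M` can vanish), `Ω` a finite Galois extension of `F`. Suppose that Deligne's formula
`L(m) / L(m + 1) = e (i ^ (d_K / 2) Δ_K) ^ n`, with `e` in the field of coefficients and possibly `0`, holds
for all the twists `M_K ⊗ ψ`, where `K` is between `F` and `Ω` and the Galois group of `Ω / K` is solvable.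

Let `F₀` be a subfield of `Ω` such that `F₀ / F` is Galois of degree a power of a prime, or `Ω / F` is solvable
and the Galois group of `F₀ / F` is an M-group; let `lam` be a character of the Galois group of `Ω / F`.
Suppose that at one embedding of the coefficients the order of vanishing of `L(s, M_Ω)` at `m` is at most `1`
or at most the one of `L(s, M_{F₀} ⊗ lam)`. Then the formula, with `e` possibly `0`, holds for `M ⊗ ρ` for every
representation `ρ` of the Galois group of `Ω / F`.
-/

set_option autoImplicit false

namespace Pool.Agent.Results.MP_c63a07_nt.VanishingValues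

open Pool.Agent.Helper51K9.TI Pool.Agent.Helper61K9.CT NumberField

/-- **Deligne's formula for the ratio of two critical values, the first of which can vanish.** -/
theorem result {A : Type} [Field A] [CharZero A] [IsAlgClosed A] [Algebra.IsAlgebraic ℚ A]
    (ι : A →+* ℂ) (c : A ≃ₐ[ℚ] A) (hc : IsConj ι c) (F : IntermediateField ℚ A)
    [FiniteDimensional ℚ F] (hF : TotallyImaginary c F) {E : Type} [Field E] [NumberField E] {n : ℕ}
    (M : Motive F E n) (m : ℤ) (hm : IsCritical M m) (Ω : IntermediateField ℚ A)
    [FiniteDimensional ℚ Ω] (hΩ : F ≤ Ω) [(gal F Ω).Normal] (h : SolvableRatios M ι c m Ω)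
    (hz : FewZeros M m Ω) : AllRatios M ι c m Ω := by
  intro E' _ _ _ r _ _ ρ hρ
  exact fin delta hc hF M hm Ω hΩ h hz E' r ρ hρ

end Pool.Agent.Results.MP_c63a07_nt.VanishingValues
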